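import Pool.Agent.H83.SGC.EL

set_option autoImplicit false

/-!
# SGC, module ELA: the algebra of the operators `el`
-/

namespace Pool.SG

open scoped Topology ComplexConjugate InnerProductSpace

/-- coefficients of basis vectors -/
theorem ela_bv (s v : Finset ℕ) : (bv s : Finset ℕ → ℂ) v = if v = s then 1 else 0 := by
  unfold bv
  rw [lp.single_apply]
  by_cases h : v = s
  · subst h
    simp
  · rw [Pi.single_eq_of_ne h, if_neg h]

theorem ela_ext {f g : BH} (h : ∀ s t, mc f s t = mc g s t) : f = g := by
  have h1 : ∀ t, f (bv t) = g (bv t) := by
    intro t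
    apply lp.ext
    funext s
    exact h s t
  ext1 ξ
  have h2 := lp.hasSum_single (p := 2) (by simp) ξ
  have h3 : ∀ t : Finset ℕ, lp.single 2 t (ξ t) = (ξ t : ℂ) • bv t := by
    intro t
    unfold bv
    rw [← lp.single_smul, smul_eq_mul, mul_one]
  have h4 := f.hasSum h2
  have h5 := g.hasSum h2
  have h6 : ∀ t : Finset ℕ, f (lp.single 2 t (ξ t)) = g (lp.single 2 t (ξ t)) := by
    intro t
    rw [h3, map_smul, map_smul, h1]
  simp only [h6] at h4
  exact h4.unique h5

theorem ela_mc_star (f : BH) (s t : Finset ℕ) : mc (star f) s t = conj (mc f t s) := by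
  have h1 : ∀ (g : BH) (s t : Finset ℕ), mc g s t = ⟪bv s, g (bv t)⟫_ℂ := by
    intro g s t
    unfold mc bv
    rw [lp.inner_single_left]
    simp
  rw [h1, h1, ContinuousLinearMap.star_eq_adjoint, ContinuousLinearMap.adjoint_inner_right,
    inner_conj_symm]

theorem ela (h : ELStmt) : ELAStmt := by
  classical
  refine ⟨fun f g => ela_ext, ?_, ?_⟩
  · intro k s t hs ht φ C hφ
    have hel := (h k s t hs ht φ C hφ).1
    have hbv : ∀ u, el k s t φ (bv u) =
        if low k u = t then φ (high k u) • bv (s ∪ high k u) else 0 := by
      intro u
      apply lp.ext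
      funext v
      rw [hel]
      by_cases h1 : low k u = t
      · rw [if_pos h1, lp.coeFn_smul, Pi.smul_apply, ela_bv, ela_bv, smul_eq_mul]
        by_cases h2 : v = s ∪ high k u
        · rw [if_pos h2, h2, el_low_union hs, el_high_union hs, if_pos rfl, if_pos]
          rw [← h1, el_split]
        · rw [if_neg h2, mul_zero]
          by_cases h3 : low k v = s
          · rw [if_pos h3, if_neg, mul_zero]
            intro h4
            apply h2
            have h5 : high k v = high k u := by rw [← h4, el_high_union ht]
            rw [← h3, ← h5, el_split]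
          · rw [if_neg h3]
      · rw [if_neg h1]
        by_cases h3 : low k v = s
        · rw [if_pos h3, ela_bv, if_neg, mul_zero]
          · rfl
          · intro h4
            apply h1
            rw [← h4, el_low_union ht]
        · rw [if_neg h3]
          rfl
    refine ⟨hbv, ?_, ?_, ?_, ?_⟩
    · -- adjoint
      have hφ' : ∀ T, ‖conj (φ T)‖ ≤ C := fun T => by
        rw [RCLike.norm_conj]
        exact hφ T
      have hel' := (h k t s ht hs (fun T => conj (φ T)) C hφ').1
      apply ela_ext
      intro u v
      rw [ela_mc_star]
      unfold mc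
      rw [hel, hel', ela_bv, ela_bv]
      by_cases h1 : low k v = s
      · by_cases h2 : low k u = t
        · rw [if_pos h1, if_pos h2]
          by_cases h3 : high k u = high k v
          · have e1 : t ∪ high k v = u := by rw [← h3, ← h2, el_split]
            have e2 : s ∪ high k u = v := by rw [h3, ← h1, el_split]
            rw [if_pos e1, if_pos e2, h3]
            simp
          · have e1 : t ∪ high k v ≠ u := by
              intro e
              apply h3
              rw [← e, el_high_union ht]
            have e2 : s ∪ high k u ≠ v := by
              intro e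
              apply h3
              rw [← e, el_high_union hs]
            rw [if_neg e1, if_neg e2]
            simp
        · rw [if_pos h1, if_neg h2, if_neg]
          · simp
          · intro e
            apply h2
            rw [← e, el_low_union ht]
      · rw [if_neg h1]
        by_cases h2 : low k u = t
        · rw [if_pos h2, if_neg]
          · simp
          · intro e
            apply h1
            rw [← e, el_low_union hs]
        · rw [if_neg h2]
          simp
    · -- product
      intro t' r ht' hr ψ D hψ
      have hel2 := (h k t' r ht' hr ψ D hψ).1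
      ext1 ξ
      apply lp.ext
      funext v
      rw [ContinuousLinearMap.mul_apply, hel, hel2, el_low_union ht, el_high_union ht]
      by_cases h1 : t = t'
      · rw [if_pos h1, if_pos h1]
        have hφψ : ∀ T, ‖φ T * ψ T‖ ≤ C * D := fun T => by
          rw [norm_mul]
          exact mul_le_mul (hφ T) (hψ T) (norm_nonneg _) ((norm_nonneg _).trans (hφ T))
        rw [(h k s r hs hr (fun T => φ T * ψ T) (C * D) hφψ).1]
        split_ifs
        · rw [mul_assoc]
        · rfl
      · rw [if_neg h1, if_neg h1, mul_zero, ite_self]
        rfl
    · -- sum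
      intro ψ D hψ
      have hsum : ∀ T, ‖φ T + ψ T‖ ≤ C + D := fun T =>
        (norm_add_le _ _).trans (add_le_add (hφ T) (hψ T))
      ext1 ξ
      apply lp.ext
      funext v
      rw [ContinuousLinearMap.add_apply, lp.coeFn_add, Pi.add_apply, hel,
        (h k s t hs ht ψ D hψ).1, (h k s t hs ht (fun T => φ T + ψ T) (C + D) hsum).1]
      split_ifs
      · rw [add_mul]
      · rw [add_zero]
    · -- scalars
      intro c
      have hc : ∀ T, ‖c * φ T‖ ≤ ‖c‖ * C := fun T => by
        rw [norm_mul]
        exact mul_le_mul_of_nonneg_left (hφ T) (norm_nonneg _)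
      ext1 ξ
      apply lp.ext
      funext v
      rw [ContinuousLinearMap.smul_apply, lp.coeFn_smul, Pi.smul_apply, hel,
        (h k s t hs ht (fun T => c * φ T) (‖c‖ * C) hc).1, smul_eq_mul]
      split_ifs
      · rw [mul_assoc]
      · rw [mul_zero]
  · intro k
    ext1 ξ
    apply lp.ext
    funext v
    rw [ContinuousLinearMap.sum_apply, lp.coeFn_sum, Finset.sum_apply,
      Finset.sum_eq_single (low k v)]
    · rw [(h k _ _ (el_low_sub k v) (el_low_sub k v) (fun _ => 1) 1 (fun _ => by simp)).1,
        if_pos rfl, one_mul, el_split]
      rfl
    · intro s hs hne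
      have hs' := Finset.mem_powerset.1 hs
      rw [(h k s s hs' hs' (fun _ => 1) 1 (fun _ => by simp)).1, if_neg (Ne.symm hne)]
    · intro hv
      exact absurd (Finset.mem_powerset.2 (el_low_sub k v)) hv

end Pool.SG
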