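import Mathlib

/-! # SGC, the delta identity over `ZMod 2` (for COMB) -/

set_option autoImplicit false

namespace Pool.SG

section
variable {V : Type}

/-- the sequence without the term number `r` -/
def del (y : ℕ → V) (r : ℕ) : ℕ → V := fun i => if i < r then y i else y (i + 1)

/-- `∏_{i<N} (f_i(v_i) + f_i(v_{i+1}))` -/
def pdif (N : ℕ) (f : ℕ → V → ZMod 2) (v : ℕ → V) : ZMod 2 :=
  ∏ i ∈ Finset.range N, (f i (v i) + f i (v (i + 1)))

theorem pdif_succ (N : ℕ) (f : ℕ → V → ZMod 2) (v : ℕ → V) :
    pdif (N + 1) f v = (f 0 (v 0) + f 0 (v 1)) *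
      pdif N (fun i => f (i + 1)) (fun i => v (i + 1)) := by
  unfold pdif
  rw [Finset.prod_range_succ']
  ring

theorem z2_add_self (a : ZMod 2) : a + a = 0 := CharTwo.add_self_eq_zero a

theorem pdif_cocycle (N : ℕ) : ∀ (f : ℕ → V → ZMod 2) (y : ℕ → V),
    ∑ r ∈ Finset.range (N + 2), pdif N f (del y r) = 0 := by
  induction N with
  | zero =>
    intro f y
    simp only [pdif, Finset.range_zero, Finset.prod_empty]
    decide
  | succ N ih =>
    intro f y
    have h := ih (fun i => f (i + 1)) (fun i => y (i + 1))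
    rw [Finset.sum_range_succ'] at h
    rw [Finset.sum_range_succ', Finset.sum_range_succ']
    have e1 : ∀ r, pdif (N + 1) f (del y (r + 1 + 1)) = (f 0 (y 0) + f 0 (y 1)) *
        pdif N (fun i => f (i + 1)) (del (fun i => y (i + 1)) (r + 1)) := by
      intro r
      rw [pdif_succ]
      congr 1
      congr 1
      funext i
      unfold del
      by_cases hi : i < r + 1
      · rw [if_pos hi, if_pos (by omega)]
      · rw [if_neg hi, if_neg (by omega)]
    have e2 : pdif (N + 1) f (del y (0 + 1)) = (f 0 (y 0) + f 0 (y 2)) *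
        pdif N (fun i => f (i + 1)) (del (fun i => y (i + 1)) 0) := by
      rw [pdif_succ]
      rfl
    have e3 : pdif (N + 1) f (del y 0) = (f 0 (y 1) + f 0 (y 2)) *
        pdif N (fun i => f (i + 1)) (del (fun i => y (i + 1)) 0) := by
      rw [pdif_succ]
      rfl
    simp only [e1, e2, e3]
    rw [← Finset.mul_sum]
    have h2 : ∑ r ∈ Finset.range (N + 1),
        pdif N (fun i => f (i + 1)) (del (fun i => y (i + 1)) (r + 1)) =
        pdif N (fun i => f (i + 1)) (del (fun i => y (i + 1)) 0) := by
      have := congrArg (· + pdif N (fun i => f (i + 1)) (del (fun i => y (i + 1)) 0)) h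
      simp only [zero_add] at this
      rw [add_assoc, z2_add_self, add_zero] at this
      exact this
    rw [h2, ← add_mul, ← add_mul]
    have h3 : f 0 (y 0) + f 0 (y 1) + (f 0 (y 0) + f 0 (y 2)) + (f 0 (y 1) + f 0 (y 2)) = 0 := by
      have a1 := z2_add_self (f 0 (y 0))
      have a2 := z2_add_self (f 0 (y 1))
      have a3 := z2_add_self (f 0 (y 2))
      linear_combination a1 + a2 + a3
    rw [h3, zero_mul]

/-- the delta identity -/
theorem pdif_delta (N : ℕ) (u : ℕ → V → ZMod 2) (y : ℕ → V) :
    pdif (N + 1) u y = ∑ r ∈ Finset.range (N + 2),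
      u 0 (del y r 0) * pdif N (fun i => u (i + 1)) (del y r) := by
  have h := pdif_cocycle N (fun i => u (i + 1)) y
  rw [Finset.sum_range_succ'] at h ⊢
  have e1 : ∀ r, del y (r + 1) 0 = y 0 := by
    intro r
    unfold del
    rw [if_pos (by omega)]
  have e2 : del y 0 0 = y 1 := rfl
  simp only [e1, e2]
  rw [← Finset.mul_sum, pdif_succ]
  have h2 : ∑ r ∈ Finset.range (N + 1), pdif N (fun i => u (i + 1)) (del y (r + 1)) =
      pdif N (fun i => u (i + 1)) (del y 0) := by
    have := congrArg (· + pdif N (fun i => u (i + 1)) (del y 0)) h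
    simp only [zero_add] at this
    rw [add_assoc, z2_add_self, add_zero] at this
    exact this
  rw [h2, ← add_mul]
  rfl

end

end Pool.SG
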