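import Pool.Agent.H53.SGC.TopDefs
import Pool.Agent.H83.SGC.COMBa

/-! # SGC, module COMB -/

set_option autoImplicit false

namespace Pool.SG

section
variable {N m : ℕ}

theorem vtx_le (w : Fin N → Fin m) (e : Fin N → Bool) (τ : Equiv.Perm (Fin N)) (r : ℕ)
    (a : Fin N) : vtx w e τ r a ≤ 2 * m := by
  unfold vtx
  have h := (w a).2
  have h2 : (e a).toNat ≤ 1 := Bool.toNat_le _
  split_ifs <;> omega

/-- the permutation with `c ↦ 0` -/
def ext (c : Fin (N + 1)) (τ : Equiv.Perm (Fin N)) : Equiv.Perm (Fin (N + 1)) :=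
  (finSuccEquiv' c).trans ((Equiv.optionCongr τ).trans (finSuccEquiv' 0).symm)

theorem ext_same (c : Fin (N + 1)) (τ : Equiv.Perm (Fin N)) : ext c τ c = 0 := by
  simp [ext]

theorem ext_above (c : Fin (N + 1)) (τ : Equiv.Perm (Fin N)) (a : Fin N) :
    ext c τ (c.succAbove a) = (τ a).succ := by
  simp [ext]

theorem ext_bij : Function.Bijective
    (fun z : Fin (N + 1) × Equiv.Perm (Fin N) => ext z.1 z.2) := by
  rw [Fintype.bijective_iff_injective_and_card]
  constructor
  · rintro ⟨c, τ⟩ ⟨d, σ⟩ h
    simp only at h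
    have h1 : c = d := by
      have h2 : ext d σ c = 0 := by rw [← h, ext_same]
      have h3 : ext d σ d = 0 := ext_same d σ
      exact (ext d σ).injective (h2.trans h3.symm)
    subst h1
    have h2 : τ = σ := by
      apply Equiv.ext
      intro a
      have h3 : ext c τ (c.succAbove a) = ext c σ (c.succAbove a) := by rw [h]
      rw [ext_above, ext_above] at h3
      exact Fin.succ_injective _ h3
    rw [h2]
  · rw [Fintype.card_prod, Fintype.card_fin, Fintype.card_perm, Fintype.card_perm,
      Fintype.card_fin, Fintype.card_fin, Nat.factorial_succ]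

theorem sum_ext (F : Equiv.Perm (Fin (N + 1)) → ZMod 2) :
    ∑ τ, F τ = ∑ c : Fin (N + 1), ∑ τ : Equiv.Perm (Fin N), F (ext c τ) := by
  rw [← Fintype.sum_prod_type' (fun c τ => F (ext c τ))]
  exact (Function.Bijective.sum_comp ext_bij F).symm

theorem sum_ins {α : Type} [Fintype α] (c : Fin (N + 1)) (F : (Fin (N + 1) → α) → ZMod 2) :
    ∑ w, F w = ∑ a : α, ∑ w : Fin N → α, F (c.insertNth a w) := by
  rw [← Fintype.sum_prod_type' (fun a w => F (c.insertNth a w))]
  exact (Function.Bijective.sum_comp (Fin.insertNthEquiv (fun _ => α) c).bijective F).symm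

theorem vtx_ext (c : Fin (N + 1)) (a : Fin m) (b : Bool) (w : Fin N → Fin m) (e : Fin N → Bool)
    (τ : Equiv.Perm (Fin N)) (i : ℕ) :
    vtx (c.insertNth a w : Fin (N + 1) → Fin m) (c.insertNth b e : Fin (N + 1) → Bool)
      (ext c τ) (i + 1) =
      (c.insertNth (2 * (a : ℕ) + 2 * b.toNat) (vtx w e τ i) : Fin (N + 1) → ℕ) := by
  funext x
  rcases Fin.eq_self_or_eq_succAbove c x with rfl | ⟨y, rfl⟩
  · unfold vtx
    rw [ext_same, if_pos (by simp)]
    simp
  · unfold vtx
    rw [ext_above]
    simp only [Fin.insertNth_apply_succAbove, Fin.val_succ, Nat.add_lt_add_iff_right]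

theorem sum_tele (m : ℕ) (F : ℕ → ZMod 2) :
    ∑ a : Fin m, ∑ b : Bool, F (2 * (a : ℕ) + 2 * b.toNat) = F 0 + F (2 * m) := by
  simp only [Fintype.sum_bool, Bool.toNat_true, Bool.toNat_false, mul_one, mul_zero, add_zero]
  rw [Fin.sum_univ_eq_sum_range (fun a => F (2 * a + 2) + F (2 * a)) m]
  induction m with
  | zero => simp [z2_add_self]
  | succ n ih =>
    rw [Finset.sum_range_succ, ih]
    have h := z2_add_self (F (2 * n))
    have e : 2 * (n + 1) = 2 * n + 2 := by ring
    rw [e]
    linear_combination h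

/-- reflection of the coordinates in `S` -/
def rw' (S : Fin N → Bool) (w : Fin N → Fin m) : Fin N → Fin m :=
  fun a => if S a then (w a).rev else w a

def re' (S : Fin N → Bool) (e : Fin N → Bool) : Fin N → Bool :=
  fun a => if S a then !(e a) else e a

theorem rw'_invol (S : Fin N → Bool) : Function.Involutive (rw' (m := m) S) := by
  intro w
  funext a
  unfold rw'
  by_cases h : S a <;> simp [h]

theorem re'_invol (S : Fin N → Bool) : Function.Involutive (re' S) := by
  intro w
  funext a
  unfold re'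
  by_cases h : S a <;> simp [h]

theorem vtx_refl (S : Fin N → Bool) (w : Fin N → Fin m) (e : Fin N → Bool)
    (τ : Equiv.Perm (Fin N)) (i : ℕ) :
    vtx (rw' S w) (re' S e) τ i =
      fun a => if S a then 2 * m - vtx w e τ i a else vtx w e τ i a := by
  funext a
  unfold vtx rw' re'
  have h := (w a).2
  by_cases hS : S a
  · simp only [hS, if_true]
    rw [Fin.val_rev]
    cases e a <;> simp <;> split_ifs <;> omega
  · simp only [hS, Bool.false_eq_true, if_false]

/-- sum of `u₀(v₀) ∏ ...` over a face -/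
def Psi (N : ℕ) {V : Type} (U : ℕ → V → ZMod 2) (v : ℕ → V) : ZMod 2 :=
  U 0 (v 0) * pdif N (fun i => U (i + 1)) v

theorem Psi_congr (N : ℕ) {V : Type} (U : ℕ → V → ZMod 2) (v v' : ℕ → V)
    (h : ∀ i, i ≤ N → v i = v' i) : Psi N U v = Psi N U v' := by
  unfold Psi pdif
  rw [h 0 (Nat.zero_le _)]
  congr 1
  apply Finset.prod_congr rfl
  intro i hi
  have := Finset.mem_range.1 hi
  rw [h i (by omega), h (i + 1) (by omega)]

/-- the sum over the face `p_c = j` -/
def Fc (m : ℕ) (c : Fin (N + 1)) (j : ℕ) (Φ : (ℕ → Fin (N + 1) → ℕ) → ZMod 2) : ZMod 2 :=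
  ∑ w : Fin N → Fin m, ∑ e : Fin N → Bool, ∑ τ : Equiv.Perm (Fin N),
    Φ (fun i => (c.insertNth j (vtx w e τ i) : Fin (N + 1) → ℕ))

/-- all functions, with index in `ℕ` -/
def UU' (u : Fin (N + 1) → (Fin (N + 1) → ℕ) → ZMod 2) : ℕ → (Fin (N + 1) → ℕ) → ZMod 2 :=
  fun i p => if h : i < N + 1 then u ⟨i, h⟩ p else 0

theorem sum_invol {α : Type} [Fintype α] (g : α → α) (hg : Function.Involutive g)
    (hne : ∀ x, g x ≠ x) (F : α → ZMod 2) (hF : ∀ x, F (g x) = F x) : ∑ x, F x = 0 :=
  Finset.sum_involution (fun x _ => g x) (fun x _ => by rw [hF]; exact z2_add_self _)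
    (fun x _ _ => hne x) (fun x _ => Finset.mem_univ _) (fun x _ => hg x)

/-- the case `1 ≤ r ≤ N` -/
theorem term_mid (u : ℕ → (Fin (N + 1) → ℕ) → ZMod 2) (r : ℕ) (h1 : 1 ≤ r) (h2 : r ≤ N)
    (w : Fin (N + 1) → Fin m) (e : Fin (N + 1) → Bool) :
    ∑ τ : Equiv.Perm (Fin (N + 1)), Psi N u (del (fun i => vtx w e τ i) r) = 0 := by
  have ha : r - 1 < N + 1 := by omega
  have hb : r < N + 1 := by omega
  apply sum_invol (fun τ => Equiv.swap (⟨r - 1, ha⟩ : Fin (N + 1)) ⟨r, hb⟩ * τ)
  · intro τ
    simp only [← mul_assoc, Equiv.swap_mul_self, one_mul]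
  · intro τ h
    have h3 : Equiv.swap (⟨r - 1, ha⟩ : Fin (N + 1)) ⟨r, hb⟩ = 1 := by
      simpa using h
    rw [Equiv.swap_eq_one_iff] at h3
    have := congrArg Fin.val h3
    simp only at this
    omega
  · intro τ
    congr 1
    have key : ∀ r', r' ≠ r → vtx w e (Equiv.swap (⟨r - 1, ha⟩ : Fin (N + 1)) ⟨r, hb⟩ * τ) r' =
        vtx w e τ r' := by
      intro r' hr'
      funext c
      unfold vtx
      have : ((Equiv.swap (⟨r - 1, ha⟩ : Fin (N + 1)) ⟨r, hb⟩ * τ) c : ℕ) < r' ↔
          (τ c : ℕ) < r' := by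
        rw [Equiv.Perm.mul_apply]
        by_cases h4 : τ c = ⟨r - 1, ha⟩
        · rw [h4, Equiv.swap_apply_left]
          simp only
          omega
        · by_cases h5 : τ c = ⟨r, hb⟩
          · rw [h5, Equiv.swap_apply_right]
            simp only
            omega
          · rw [Equiv.swap_apply_of_ne_of_ne h4 h5]
      simp only [this]
    funext i
    unfold del
    by_cases hi : i < r
    · rw [if_pos hi, if_pos hi]
      exact key i (by omega)
    · rw [if_neg hi, if_neg hi]
      exact key (i + 1) (by omega)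

/-- the case `r = N + 1` -/
theorem term_last (u : ℕ → (Fin (N + 1) → ℕ) → ZMod 2) (w : Fin (N + 1) → Fin m)
    (τ : Equiv.Perm (Fin (N + 1))) :
    ∑ e : Fin (N + 1) → Bool, Psi N u (del (fun i => vtx w e τ i) (N + 1)) = 0 := by
  obtain ⟨c, hc⟩ : ∃ c, τ c = Fin.last N := ⟨τ.symm (Fin.last N), by simp⟩
  apply sum_invol (fun e => Function.update e c (!(e c)))
  · intro e
    simp
  · intro e h
    have := congrFun h c
    simp at this
  · intro e
    apply Psi_congr
    intro i hi
    unfold del
    rw [if_pos (by omega), if_pos (by omega)]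
    funext x
    unfold vtx
    simp only
    by_cases hx : x = c
    · subst hx
      have : ¬ ((τ x : ℕ) < i) := by
        rw [hc, Fin.val_last]
        omega
      rw [if_neg this, if_neg this]
    · rw [Function.update_of_ne hx]

theorem u_eq (u : Fin (N + 1) → (Fin (N + 1) → ℕ) → ZMod 2) (i : Fin (N + 1)) :
    UU' u i = u i := by
  funext p
  unfold UU'
  rw [dif_pos i.2]

theorem bound_ins (c : Fin (N + 1)) (j : ℕ) (hj : j ≤ 2 * m) (w : Fin N → Fin m)
    (e : Fin N → Bool) (τ : Equiv.Perm (Fin N)) (i : ℕ) (a : Fin (N + 1)) :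
    (c.insertNth j (vtx w e τ i) : Fin (N + 1) → ℕ) a ≤ 2 * m := by
  rcases Fin.eq_self_or_eq_succAbove c a with rfl | ⟨y, rfl⟩
  · simpa using hj
  · simpa using vtx_le w e τ i y

/-- `Psi` depends on the values of the functions at the vertices only -/
theorem Psi_eq (u : ℕ → (Fin (N + 1) → ℕ) → ZMod 2) (v v' : ℕ → Fin (N + 1) → ℕ) (t : ℕ → ZMod 2)
    (h : ∀ i, i ≤ N → ∀ j, u i (v j) = u i (v' j) + t i) :
    Psi N u v = Psi N u v' + t 0 * pdif N (fun i => u (i + 1)) v' := by
  have h1 : pdif N (fun i => u (i + 1)) v = pdif N (fun i => u (i + 1)) v' := by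
    unfold pdif
    apply Finset.prod_congr rfl
    intro i hi
    have := Finset.mem_range.1 hi
    show u (i + 1) (v i) + u (i + 1) (v (i + 1)) = u (i + 1) (v' i) + u (i + 1) (v' (i + 1))
    rw [h (i + 1) (by omega), h (i + 1) (by omega)]
    have := z2_add_self (t (i + 1))
    linear_combination this
  unfold Psi
  rw [h1, h 0 (Nat.zero_le _)]
  ring

/-- a smaller coordinate of the same type -/
theorem face_zero {ty : Fin (N + 1) → ℕ} {u : Fin (N + 1) → (Fin (N + 1) → ℕ) → ZMod 2}
    (h2 : R2 (N + 1) m ty u) {a c : Fin (N + 1)} (hac : a < c) (hty : ty a = ty c) {j : ℕ}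
    (hj : j = 0 ∨ j = 2 * m) : Fc m c j (Psi N (UU' u)) = 0 := by
  obtain ⟨y, rfl⟩ := Fin.exists_succAbove_eq hac.ne
  let S : Fin N → Bool := fun x => decide (x = y)
  have hj' : j ≤ 2 * m := by rcases hj with h | h <;> omega
  unfold Fc
  rw [← Fintype.sum_prod_type']
  apply sum_invol (fun z : (Fin N → Fin m) × (Fin N → Bool) => (rw' S z.1, re' S z.2))
  · rintro ⟨w, e⟩
    simp only [rw'_invol S w, re'_invol S e]
  · rintro ⟨w, e⟩ h
    have h3 := congrFun (Prod.mk.inj h).2 y
    simp [re', S] at h3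
  · rintro ⟨w, e⟩
    simp only
    apply Finset.sum_congr rfl
    intro τ _
    have := Psi_eq (UU' u) (fun i => (c.insertNth j (vtx (rw' S w) (re' S e) τ i) :
      Fin (N + 1) → ℕ)) (fun i => (c.insertNth j (vtx w e τ i) : Fin (N + 1) → ℕ)) (fun _ => 0)
      (by
        intro i hi i'
        have hi' : i < N + 1 := by omega
        have e1 := u_eq u ⟨i, hi'⟩
        simp only at e1
        rw [e1, add_zero]
        have h4 := h2 ⟨i, hi'⟩ (c.succAbove y) c
          (c.insertNth j (vtx w e τ i') : Fin (N + 1) → ℕ)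
          (bound_ins c j hj' w e τ i') hac hty (by simpa using hj)
        rw [h4]
        congr 1
        funext x
        rw [vtx_refl]
        rcases Fin.eq_self_or_eq_succAbove c x with rfl | ⟨x', rfl⟩
        · rw [Function.update_of_ne (Fin.succAbove_ne _ _).symm]
          simp
        · by_cases hx : x' = y
          · subst hx
            simp [S]
          · rw [Function.update_of_ne (by
              intro h
              exact hx (Fin.succAbove_right_injective h))]
            simp [S, hx])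
    rw [this]
    simp

/-- the first coordinate of its type -/
theorem face_two {ty : Fin (N + 1) → ℕ} {u : Fin (N + 1) → (Fin (N + 1) → ℕ) → ZMod 2}
    (h1 : R1 (N + 1) m ty u) (c : Fin (N + 1)) :
    Fc m c (2 * m) (Psi N (UU' u)) = Fc m c 0 (Psi N (UU' u)) +
      (if ty c = ty 0 then 1 else 0) * Fc m c 0 (pdif N (fun i => UU' u (i + 1))) := by
  let S : Fin N → Bool := fun x => decide (c < c.succAbove x ∧ ty (c.succAbove x) = ty c)
  let t : ℕ → ZMod 2 := fun i => if h : i < N + 1 then (if ty c = ty ⟨i, h⟩ then 1 else 0) else 0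
  have ht0 : t 0 = if ty c = ty 0 then 1 else 0 := by
    simp only [t]
    rw [dif_pos (Nat.succ_pos N)]
    rfl
  have key : ∀ (w : Fin N → Fin m) (e : Fin N → Bool) (τ : Equiv.Perm (Fin N)),
      Psi N (UU' u) (fun i => (c.insertNth (2 * m) (vtx w e τ i) : Fin (N + 1) → ℕ)) =
      Psi N (UU' u) (fun i => (c.insertNth 0 (vtx (rw' S w) (re' S e) τ i) :
        Fin (N + 1) → ℕ)) + t 0 * pdif N (fun i => UU' u (i + 1))
        (fun i => (c.insertNth 0 (vtx (rw' S w) (re' S e) τ i) : Fin (N + 1) → ℕ)) := by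
    intro w e τ
    apply Psi_eq
    intro i hi i'
    have hi' : i < N + 1 := by omega
    have e1 := u_eq u ⟨i, hi'⟩
    simp only at e1
    rw [e1]
    have h4 := h1 ⟨i, hi'⟩ c (c.insertNth (2 * m) (vtx w e τ i') : Fin (N + 1) → ℕ)
      (bound_ins c _ le_rfl w e τ i') (by simp)
    rw [h4]
    simp only [t, dif_pos hi']
    congr 2
    funext x
    rw [vtx_refl]
    rcases Fin.eq_self_or_eq_succAbove c x with rfl | ⟨x', rfl⟩
    · simp
    · rw [if_neg (Fin.succAbove_ne _ _)]
      simp [S]
  unfold Fc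
  simp only [key]
  rw [← ht0, Finset.mul_sum]
  simp only [Finset.mul_sum]
  simp only [← Finset.sum_add_distrib]
  have hb1 : Function.Bijective (rw' (m := m) S) := (rw'_invol S).bijective
  have hb2 : Function.Bijective (re' S) := (re'_invol S).bijective
  rw [← Function.Bijective.sum_comp hb1 (fun w => ∑ e : Fin N → Bool,
    ∑ τ : Equiv.Perm (Fin N), (Psi N (UU' u) (fun i => (c.insertNth 0 (vtx w e τ i) :
        Fin (N + 1) → ℕ)) + t 0 * pdif N (fun i => UU' u (i + 1))
        (fun i => (c.insertNth 0 (vtx w e τ i) : Fin (N + 1) → ℕ))))]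
  apply Finset.sum_congr rfl
  intro w _
  rw [← Function.Bijective.sum_comp hb2 (fun e =>
    ∑ τ : Equiv.Perm (Fin N), (Psi N (UU' u) (fun i => (c.insertNth 0 (vtx (rw' S w) e τ i) :
        Fin (N + 1) → ℕ)) + t 0 * pdif N (fun i => UU' u (i + 1))
        (fun i => (c.insertNth 0 (vtx (rw' S w) e τ i) : Fin (N + 1) → ℕ))))]

/-- the term `r = 0` -/
theorem term_zero (u : ℕ → (Fin (N + 1) → ℕ) → ZMod 2) :
    ∑ w : Fin (N + 1) → Fin m, ∑ e : Fin (N + 1) → Bool, ∑ τ : Equiv.Perm (Fin (N + 1)),
      Psi N u (del (fun i => vtx w e τ i) 0) =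
    ∑ c : Fin (N + 1), (Fc m c 0 (Psi N u) + Fc m c (2 * m) (Psi N u)) := by
  have e1 : ∀ (w : Fin (N + 1) → Fin m) (e : Fin (N + 1) → Bool) (τ : Equiv.Perm (Fin (N + 1))),
      del (fun i => vtx w e τ i) 0 = fun i => vtx w e τ (i + 1) := by
    intro w e τ
    funext i
    unfold del
    rw [if_neg (Nat.not_lt_zero _)]
  simp only [e1, sum_ext]
  -- bring the sum over `c` in front
  have e2 : ∀ (Φ : (Fin (N + 1) → Fin m) → (Fin (N + 1) → Bool) → Fin (N + 1) → ZMod 2),
      ∑ w, ∑ e, ∑ c, Φ w e c = ∑ c, ∑ w, ∑ e, Φ w e c := by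
    intro Φ
    calc ∑ w, ∑ e, ∑ c, Φ w e c = ∑ w, ∑ c, ∑ e, Φ w e c :=
          Finset.sum_congr rfl (fun w _ => Finset.sum_comm)
      _ = ∑ c, ∑ w, ∑ e, Φ w e c := Finset.sum_comm
  rw [e2]
  apply Finset.sum_congr rfl
  intro c _
  have e3 : ∀ (F : (Fin (N + 1) → Fin m) → (Fin (N + 1) → Bool) → ZMod 2),
      ∑ w, ∑ e, F w e = ∑ w : Fin N → Fin m, ∑ e : Fin N → Bool, ∑ a : Fin m, ∑ b : Bool,
        F (c.insertNth a w) (c.insertNth b e) := by
    intro F
    rw [sum_ins c]
    have e4 : ∀ (a : Fin m) (w : Fin N → Fin m), ∑ e : Fin (N + 1) → Bool,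
        F (c.insertNth a w) e = ∑ e : Fin N → Bool, ∑ b : Bool,
          F (c.insertNth a w) (c.insertNth b e) := by
      intro a w
      rw [sum_ins c, Finset.sum_comm]
    simp only [e4]
    rw [Finset.sum_comm]
    exact Finset.sum_congr rfl (fun w _ => Finset.sum_comm)
  rw [e3]
  unfold Fc
  rw [← Finset.sum_add_distrib]
  apply Finset.sum_congr rfl
  intro w _
  rw [← Finset.sum_add_distrib]
  apply Finset.sum_congr rfl
  intro e _
  simp only [vtx_ext]
  exact sum_tele m (fun j => ∑ τ : Equiv.Perm (Fin N),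
    Psi N u (fun i => (c.insertNth j (vtx w e τ i) : Fin (N + 1) → ℕ)))

end

theorem comb : COMBStmt := by
  intro N
  induction N with
  | zero =>
    intro m hm ty u _ _
    unfold Tsum
    simp
  | succ N ih =>
    intro m hm ty u h1 h2
    have e1 : Tsum (N + 1) m u = ∑ w : Fin (N + 1) → Fin m, ∑ e : Fin (N + 1) → Bool,
        ∑ τ : Equiv.Perm (Fin (N + 1)), ∑ r ∈ Finset.range (N + 2),
          Psi N (UU' u) (del (fun i => vtx w e τ i) r) := by
      unfold Tsum
      apply Finset.sum_congr rfl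
      intro w _
      apply Finset.sum_congr rfl
      intro e _
      apply Finset.sum_congr rfl
      intro τ _
      have := pdif_delta N (UU' u) (fun i => vtx w e τ i)
      unfold Psi
      rw [← this]
      unfold pdif
      rw [Finset.prod_range]
      apply Finset.prod_congr rfl
      intro i _
      rw [u_eq u i]
    have e2 : Tsum (N + 1) m u = ∑ r ∈ Finset.range (N + 2), ∑ w : Fin (N + 1) → Fin m,
        ∑ e : Fin (N + 1) → Bool, ∑ τ : Equiv.Perm (Fin (N + 1)),
          Psi N (UU' u) (del (fun i => vtx w e τ i) r) := by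
      rw [e1]
      calc _ = ∑ w : Fin (N + 1) → Fin m, ∑ e : Fin (N + 1) → Bool,
            ∑ r ∈ Finset.range (N + 2), ∑ τ : Equiv.Perm (Fin (N + 1)),
              Psi N (UU' u) (del (fun i => vtx w e τ i) r) :=
            Finset.sum_congr rfl fun w _ => Finset.sum_congr rfl fun e _ => Finset.sum_comm
        _ = ∑ w : Fin (N + 1) → Fin m, ∑ r ∈ Finset.range (N + 2),
            ∑ e : Fin (N + 1) → Bool, ∑ τ : Equiv.Perm (Fin (N + 1)),
              Psi N (UU' u) (del (fun i => vtx w e τ i) r) :=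
            Finset.sum_congr rfl fun w _ => Finset.sum_comm
        _ = _ := Finset.sum_comm
    rw [Finset.sum_range_succ, Finset.sum_range_succ', term_zero] at e2
    have e3 : ∑ w : Fin (N + 1) → Fin m, ∑ e : Fin (N + 1) → Bool,
        ∑ τ : Equiv.Perm (Fin (N + 1)),
          Psi N (UU' u) (del (fun i => vtx w e τ i) (N + 1)) = 0 := by
      apply Finset.sum_eq_zero
      intro w _
      rw [Finset.sum_comm]
      exact Finset.sum_eq_zero fun τ _ => term_last (UU' u) w τ
    have e4 : ∑ r ∈ Finset.range N, ∑ w : Fin (N + 1) → Fin m, ∑ e : Fin (N + 1) → Bool,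
        ∑ τ : Equiv.Perm (Fin (N + 1)),
          Psi N (UU' u) (del (fun i => vtx w e τ i) (r + 1)) = 0 := by
      apply Finset.sum_eq_zero
      intro r hr
      have := Finset.mem_range.1 hr
      exact Finset.sum_eq_zero fun w _ => Finset.sum_eq_zero fun e _ =>
        term_mid (UU' u) (r + 1) (by omega) (by omega) w e
    rw [e3, e4, add_zero, zero_add] at e2
    rw [e2, Finset.sum_eq_single 0]
    · rw [face_two h1 0, if_pos rfl, one_mul, ← add_assoc, z2_add_self, zero_add]
      have := ih m hm (fun i => ty i.succ) (fun i p => u i.succ (Fin.cons 0 p)) ?_ ?_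
      · rw [← this]
        unfold Fc Tsum
        apply Finset.sum_congr rfl
        intro w _
        apply Finset.sum_congr rfl
        intro e _
        apply Finset.sum_congr rfl
        intro τ _
        unfold pdif
        rw [Finset.prod_range]
        apply Finset.prod_congr rfl
        intro i _
        have e5 := u_eq u i.succ
        rw [Fin.val_succ] at e5
        simp only [e5, Fin.insertNth_zero']
      · intro i c p hp hc
        have h3 := h1 i.succ c.succ (Fin.cons 0 p) (by
          intro a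
          refine Fin.cases ?_ (fun a => ?_) a
          · simp
          · simpa using hp a) (by simpa using hc)
        simp only
        rw [h3]
        congr 2
        funext a
        refine Fin.cases ?_ (fun a => ?_) a
        · simp
        · simp
      · intro i a b p hp hab hty hb
        have h3 := h2 i.succ a.succ b.succ (Fin.cons 0 p) (by
          intro a
          refine Fin.cases ?_ (fun a => ?_) a
          · simp
          · simpa using hp a) (by simpa using hab) hty (by simpa using hb)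
        simp only
        rw [h3]
        congr 1
        funext x
        refine Fin.cases ?_ (fun x => ?_) x
        · rw [Function.update_of_ne (Fin.succ_ne_zero a).symm]
          simp
        · by_cases hx : x = a
          · subst hx
            simp
          · rw [Function.update_of_ne (by simpa using hx)]
            simp [hx]
    · intro c _ hc
      by_cases hex : ∃ a, a < c ∧ ty a = ty c
      · obtain ⟨a, ha, hty⟩ := hex
        rw [face_zero h2 ha hty (Or.inl rfl), face_zero h2 ha hty (Or.inr rfl), add_zero]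
      · rw [face_two h1 c, if_neg, zero_mul, add_zero, z2_add_self]
        intro h
        apply hex
        exact ⟨0, Fin.pos_iff_ne_zero.2 hc, h.symm⟩
    · intro h
      exact absurd (Finset.mem_univ _) h

end Pool.SG
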