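import Pool.Agent.H53.SGC.CDefs

set_option autoImplicit false

/-!
# SGC, module EL: bounded weighted composition operators
-/

namespace Pool.SG

open scoped Topology ComplexConjugate

theorem el_low_sub (k : ℕ) (u : Finset ℕ) : low k u ⊆ Finset.range k := by
  intro i hi
  exact Finset.mem_range.2 (Finset.mem_filter.1 hi).2

theorem el_split (k : ℕ) (u : Finset ℕ) : low k u ∪ high k u = u := by
  ext i
  simp only [low, high, Finset.mem_union, Finset.mem_filter]
  constructor
  · rintro (h | h)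
    · exact h.1
    · exact h.1
  · intro h
    rcases lt_or_ge i k with h1 | h1
    · exact Or.inl ⟨h, h1⟩
    · exact Or.inr ⟨h, h1⟩

theorem el_low_union {k : ℕ} {t : Finset ℕ} (ht : t ⊆ Finset.range k) (u : Finset ℕ) :
    low k (t ∪ high k u) = t := by
  ext i
  simp only [low, high, Finset.mem_union, Finset.mem_filter]
  constructor
  · rintro ⟨h | h, h1⟩
    · exact h
    · omega
  · intro h
    exact ⟨Or.inl h, Finset.mem_range.1 (ht h)⟩

theorem el_high_union {k : ℕ} {t : Finset ℕ} (ht : t ⊆ Finset.range k) (u : Finset ℕ) :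
    high k (t ∪ high k u) = high k u := by
  ext i
  simp only [high, Finset.mem_union, Finset.mem_filter]
  constructor
  · rintro ⟨h | h, h1⟩
    · have := Finset.mem_range.1 (ht h)
      omega
    · exact h
  · intro h
    exact ⟨Or.inr h, h.2⟩

/-- the function of the operator -/
private noncomputable def el1 (k : ℕ) (s t : Finset ℕ) (φ : Finset ℕ → ℂ) (ξ : HH) :
    Finset ℕ → ℂ :=
  fun v => if low k v = s then φ (high k v) * (ξ : Finset ℕ → ℂ) (t ∪ high k v) else 0

private theorem el1_sum {k : ℕ} {s t : Finset ℕ} (ht : t ⊆ Finset.range k)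
    {φ : Finset ℕ → ℂ} {C : ℝ} (hφ : ∀ T, ‖φ T‖ ≤ C) (ξ : HH) (F : Finset (Finset ℕ)) :
    ∑ v ∈ F, ‖el1 k s t φ ξ v‖ ^ (2 : ENNReal).toReal ≤ (C * ‖ξ‖) ^ (2 : ENNReal).toReal := by
  classical
  have hC : 0 ≤ C := (norm_nonneg _).trans (hφ ∅)
  have h2 : (2 : ENNReal).toReal = 2 := by simp
  have hpos : 0 < (2 : ENNReal).toReal := by rw [h2]; norm_num
  have h1 := lp.sum_rpow_le_norm_rpow hpos ξ
    ((F.filter fun v => low k v = s).image fun v => t ∪ high k v)
  rw [Finset.sum_image] at h1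
  · have h3 : ∑ v ∈ F, ‖el1 k s t φ ξ v‖ ^ (2 : ENNReal).toReal =
        ∑ v ∈ F.filter fun v => low k v = s,
          ‖φ (high k v) * (ξ : Finset ℕ → ℂ) (t ∪ high k v)‖ ^ (2 : ENNReal).toReal := by
      rw [Finset.sum_filter]
      refine Finset.sum_congr rfl fun v _ => ?_
      unfold el1
      split_ifs with h
      · rfl
      · rw [norm_zero, Real.zero_rpow hpos.ne']
    rw [h3, Real.mul_rpow hC (norm_nonneg _)]
    calc ∑ v ∈ F.filter fun v => low k v = s,
          ‖φ (high k v) * (ξ : Finset ℕ → ℂ) (t ∪ high k v)‖ ^ (2 : ENNReal).toReal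
        ≤ ∑ v ∈ F.filter fun v => low k v = s, C ^ (2 : ENNReal).toReal *
          ‖(ξ : Finset ℕ → ℂ) (t ∪ high k v)‖ ^ (2 : ENNReal).toReal := by
          refine Finset.sum_le_sum fun v _ => ?_
          rw [norm_mul, Real.mul_rpow (norm_nonneg _) (norm_nonneg _)]
          refine mul_le_mul_of_nonneg_right ?_ (Real.rpow_nonneg (norm_nonneg _) _)
          exact Real.rpow_le_rpow (norm_nonneg _) (hφ _) hpos.le
      _ = C ^ (2 : ENNReal).toReal * ∑ v ∈ F.filter fun v => low k v = s,
          ‖(ξ : Finset ℕ → ℂ) (t ∪ high k v)‖ ^ (2 : ENNReal).toReal := by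
          rw [Finset.mul_sum]
      _ ≤ _ := mul_le_mul_of_nonneg_left h1 (Real.rpow_nonneg hC _)
  · intro v hv v' hv' h
    have hv1 := (Finset.mem_filter.1 (Finset.mem_coe.1 hv)).2
    have hv2 := (Finset.mem_filter.1 (Finset.mem_coe.1 hv')).2
    have h3 : high k v = high k v' := by
      have := congrArg (high k) h
      simp only [el_high_union ht] at this
      exact this
    rw [← el_split k v, ← el_split k v', hv1, hv2, h3]

theorem el_thm : ELStmt := by
  intro k s t _ ht φ C hφ
  have hC : 0 ≤ C := (norm_nonneg _).trans (hφ ∅)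
  have hpos : 0 < (2 : ENNReal).toReal := by simp
  let L : HH →ₗ[ℂ] HH :=
    { toFun := fun ξ => ⟨el1 k s t φ ξ, memℓp_gen' (el1_sum ht hφ ξ)⟩
      map_add' := fun ξ η => by
        apply lp.ext
        funext v
        show el1 k s t φ (ξ + η) v = el1 k s t φ ξ v + el1 k s t φ η v
        unfold el1
        split_ifs
        · rw [lp.coeFn_add, Pi.add_apply, mul_add]
        · rw [add_zero]
      map_smul' := fun c ξ => by
        apply lp.ext
        funext v
        show el1 k s t φ (c • ξ) v = c • el1 k s t φ ξ v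
        unfold el1
        split_ifs
        · rw [lp.coeFn_smul, Pi.smul_apply, smul_eq_mul, smul_eq_mul]
          ring
        · rw [smul_zero] }
  have hL : ∀ ξ, ‖L ξ‖ ≤ C * ‖ξ‖ := fun ξ =>
    lp.norm_le_of_forall_sum_le hpos (mul_nonneg hC (norm_nonneg _)) (el1_sum ht hφ ξ)
  have hex : ∃ W : BH, ∀ (ξ : HH) (v : Finset ℕ), (W ξ : Finset ℕ → ℂ) v =
      if low k v = s then φ (high k v) * (ξ : Finset ℕ → ℂ) (t ∪ high k v) else 0 :=
    ⟨L.mkContinuous C hL, fun ξ v => rfl⟩
  have h1 : ∀ (ξ : HH) (v : Finset ℕ), (el k s t φ ξ : Finset ℕ → ℂ) v =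
      if low k v = s then φ (high k v) * (ξ : Finset ℕ → ℂ) (t ∪ high k v) else 0 :=
    Classical.epsilon_spec hex
  refine ⟨h1, ContinuousLinearMap.opNorm_le_bound _ hC fun ξ => ?_⟩
  have h2 : el k s t φ ξ = L ξ := by
    apply lp.ext
    funext v
    rw [h1]
    rfl
  rw [h2]
  exact hL ξ

end Pool.SG
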